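import Pool.Agent.Q75.BoxEff

/-!
# The pseudoeffective cone of `X^n_{n+4}` has a positive part for every `n ≥ 6`

For `n ≥ 6` and `n + 4` points of complex projective `n`-space the class
`738 H - 527 (E_1 + ... + E_7) - 492 E_8 - 493 (E_9 + E_10) - 738 (E_11 + ... + E_{n+4})`
is effective, and its intersection number with `F = (n + 1) h - ∑ e_i` is `-1`.
-/

namespace Pool.Agent.Results.MP_71de02_ag.PositivePart

open Finset Pool.Agent.H689R3.Weyl Pool.Agent.Q75.Box

/-- The class `738 H - ∑ m_i E_i` on the blow-up of projective `n`-space at `n + 4` points, with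
`m_1 = ... = m_7 = 527`, `m_8 = 492`, `m_9 = m_10 = 493` and `m_i = 738` for `i ≥ 11`
(`(d, m)` stands for `d H - ∑ m_i E_i`). -/
def theClass (n : ℕ) : ℤ × (Fin (n + 4) → ℤ) :=
  (738, fun i => if i.val < 7 then 527 else if i.val = 7 then 492 else
    if i.val < 10 then 493 else 738)

/-- The closed convex cone generated by the classes of effective divisors on the blow-up of
projective `n`-space at the points `p i`. -/
noncomputable def pseudoEffCone {n s : ℕ} (p : Fin s → Fin (n + 1) → ℂ) :
    Set (ℝ × (Fin s → ℝ)) :=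
  closure (PointedCone.hull ℝ {x : ℝ × (Fin s → ℝ) | ∃ D : ℤ × (Fin s → ℤ), IsEffective p D ∧
    x = ((D.1 : ℝ), fun i => (D.2 i : ℝ))} : Set (ℝ × (Fin s → ℝ)))

lemma sum_mult (k : ℕ) : ∑ i, (theClass (k + 6)).2 i = 5167 + 738 * (k : ℤ) := by
  have h := Fin.sum_univ_eq_sum_range (fun i : ℕ => (if i < 7 then 527 else if i = 7 then 492 else
    if i < 10 then 493 else 738 : ℤ)) (k + 6 + 4)
  have h1 : ∑ i, (theClass (k + 6)).2 i = ∑ i : Fin (k + 6 + 4), (fun i : ℕ =>
    (if i < 7 then 527 else if i = 7 then 492 else if i < 10 then 493 else 738 : ℤ)) i := rfl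
  rw [h1, h]
  have h2 : k + 6 + 4 = 10 + k := by ring
  rw [h2, Finset.sum_range_add]
  have h3 : ∀ x ∈ range k, (if 10 + x < 7 then 527 else if 10 + x = 7 then 492 else
      if 10 + x < 10 then 493 else 738 : ℤ) = 738 := by
    intro x _
    rw [if_neg (by omega), if_neg (by omega), if_neg (by omega)]
  rw [Finset.sum_congr rfl h3]
  simp [Finset.sum_range_succ]
  ring

/-- the three points with index 7, 8, 9 -/
def three (k : ℕ) : Finset (Fin (k + 6 + 4)) :=
  {⟨7, by omega⟩, ⟨8, by omega⟩, ⟨9, by omega⟩}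

lemma mem_three {k : ℕ} {i : Fin (k + 6 + 4)} : i ∈ three k ↔ i.val = 7 ∨ i.val = 8 ∨ i.val = 9 := by
  simp [three, Fin.ext_iff]

lemma card_three (k : ℕ) : (three k).card = 3 := by
  simp [three]

lemma eff (k : ℕ) : EffAll (k + 6) (theClass (k + 6)) := by
  classical
  set I : Finset (Fin (k + 6 + 4)) := univ \ three k with hIdef
  have hI : I.card = k + 6 + 1 := by
    rw [hIdef, Finset.card_sdiff_of_subset (subset_univ _), card_three, Finset.card_univ,
      Fintype.card_fin]
    omega
  let e : Fin (k + 6 + 1) ≃ I := (Finset.equivFinOfCardEq hI).symm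
  let S : Finset (Fin (k + 6 + 1)) := univ.filter (fun l => (e l).1.val < 7)
  have hS : S.card = 7 := by
    have h1 : S.card = (univ.filter (fun i : Fin (k + 6 + 4) => i.val < 7)).card := by
      refine Finset.card_bij (fun l _ => (e l).1) ?_ ?_ ?_
      · intro l hl
        exact Finset.mem_filter.2 ⟨mem_univ _, (Finset.mem_filter.1 hl).2⟩
      · intro l _ l' _ h
        exact e.injective (Subtype.ext h)
      · intro i hi
        have hi' := (Finset.mem_filter.1 hi).2
        have hiI : i ∈ I := by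
          rw [hIdef, Finset.mem_sdiff]
          refine ⟨mem_univ _, fun h => ?_⟩
          rw [mem_three] at h; omega
        obtain ⟨l, hl⟩ := e.surjective ⟨i, hiI⟩
        refine ⟨l, Finset.mem_filter.2 ⟨mem_univ _, ?_⟩, ?_⟩
        · rw [hl]; exact hi'
        · rw [hl]
    rw [h1]
    have h2 : (univ.filter (fun i : Fin (k + 6 + 4) => i.val < 7)) =
        (univ : Finset (Fin 7)).map (Fin.castLEEmb (by omega : 7 ≤ k + 6 + 4)) := by
      ext i
      simp only [Finset.mem_filter, mem_univ, true_and, Finset.mem_map]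
      constructor
      · intro h; exact ⟨⟨i.val, h⟩, rfl⟩
      · rintro ⟨j, rfl⟩; exact j.2
    rw [h2, Finset.card_map, Finset.card_univ, Fintype.card_fin]
  refine effAll_box I e (theClass (k + 6)) 738 rfl (fun l => if l ∈ S then 211 else 0) ?_ ?_ ?_
  · intro l
    have hl : (e l).1 ∈ univ \ three k := (e l).2
    have hl2 : ¬ ((e l).1.val = 7 ∨ (e l).1.val = 8 ∨ (e l).1.val = 9) := by
      rw [← mem_three]; exact (Finset.mem_sdiff.1 hl).2
    by_cases hlS : l ∈ S
    · have h1 := (Finset.mem_filter.1 hlS).2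
      simp only [theClass, hlS, h1, if_true]; norm_num
    · have h1 : ¬ (e l).1.val < 7 := fun h => hlS (Finset.mem_filter.2 ⟨mem_univ _, h⟩)
      simp only [theClass, hlS, h1, if_false]
      rw [if_neg (by omega), if_neg (by omega)]; norm_num
  · intro j _
    simp only [theClass]
    split_ifs <;> norm_num
  · have h0 : (univ \ I : Finset (Fin (k + 6 + 4))) = three k := by
      rw [hIdef]; simp
    rw [h0, Finset.sum_coe_sort (three k) (fun j => (box (fun l => if l ∈ S then 211 else 0)
      (((theClass (k + 6)).2 j).toNat - 1)).card)]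
    rw [three, Finset.sum_insert (by simp), Finset.sum_insert (by simp), Finset.sum_singleton]
    have e7 : ((theClass (k + 6)).2 ⟨7, by omega⟩).toNat - 1 = 491 := rfl
    have e8 : ((theClass (k + 6)).2 ⟨8, by omega⟩).toNat - 1 = 492 := rfl
    have e9 : ((theClass (k + 6)).2 ⟨9, by omega⟩).toNat - 1 = 492 := rfl
    rw [e7, e8, e9, card738 S hS, card491 S hS, card492 S hS]
    norm_num

/-- **The positive part of the pseudoeffective cone of `X^n_{n+4}`.**
For every `n ≥ 6` the class `D = 738 H - ∑ m_i E_i` satisfies `(n + 1) 738 - ∑ m_i = -1`, and it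
is effective on the blow-up of complex projective `n`-space at any `n + 4` points; in particular
the pseudoeffective cone is not contained in the half-space `D · F ≥ 0`. -/
theorem result (n : ℕ) (hn : 6 ≤ n) :
    ((n : ℤ) + 1) * (theClass n).1 - ∑ i, (theClass n).2 i = -1 ∧
    (∀ p : Fin (n + 4) → Fin (n + 1) → ℂ, IsEffective p (theClass n)) ∧
    ∀ p : Fin (n + 4) → Fin (n + 1) → ℂ,
      ¬ pseudoEffCone p ⊆ {x : ℝ × (Fin (n + 4) → ℝ) | 0 ≤ ((n : ℝ) + 1) * x.1 - ∑ i, x.2 i} := by
  obtain ⟨k, rfl⟩ := Nat.exists_eq_add_of_le' hn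
  have h1 : (((k + 6 : ℕ) : ℤ) + 1) * (theClass (k + 6)).1 - ∑ i, (theClass (k + 6)).2 i = -1 := by
    rw [sum_mult]
    simp only [theClass]
    push_cast; ring
  have h2 : ∀ p : Fin (k + 6 + 4) → Fin (k + 6 + 1) → ℂ, IsEffective p (theClass (k + 6)) := eff k
  refine ⟨h1, h2, fun p hp => ?_⟩
  have h3 : (((theClass (k + 6)).1 : ℝ), fun i => ((theClass (k + 6)).2 i : ℝ)) ∈
      pseudoEffCone p := subset_closure (PointedCone.subset_hull ⟨_, h2 p, rfl⟩)
  have h4 := hp h3
  have h5 : (((k + 6 : ℕ) : ℝ) + 1) * ((theClass (k + 6)).1 : ℝ) -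
      ∑ i, ((theClass (k + 6)).2 i : ℝ) = -1 := by exact_mod_cast h1
  change 0 ≤ (((k + 6 : ℕ) : ℝ) + 1) * ((theClass (k + 6)).1 : ℝ) -
      ∑ i, ((theClass (k + 6)).2 i : ℝ) at h4
  rw [h5] at h4
  norm_num at h4

end Pool.Agent.Results.MP_71de02_ag.PositivePart
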